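import Mathlib
import Pool.Agent.H17.RC.BernNull

/-!
# Fields `∂_z + (A w^(k+1) + B w) ∂_w`: all leaves are covered by `ℂ`, or only `w = 0` and leaves on
one curve `y w^k = x`

`PlanePts` and `DiscPts` are in `Pool/Agent/H17/RC/Defs.lean`.
-/

set_option autoImplicit false

namespace Pool.Agent.Results.MP_7eaf46_an.BernoulliFields

open Pool.Agent.H17.RC MeasureTheory

theorem result :
    (∀ (k : ℕ) (A B : ℂ → ℂ), 1 ≤ k → Differentiable ℂ A → Differentiable ℂ B →
      PlanePts (fun _ _ => 1) (fun z w => A z * w ^ (k + 1) + B z * w) = Set.univ ∨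
      ∃ x y : ℂ → ℂ, Differentiable ℂ x ∧ Differentiable ℂ y ∧ (∀ z, x z ≠ 0 ∨ y z ≠ 0) ∧
        (∀ z, y z ≠ 0 → HasDerivAt (fun z => x z / y z)
          (k * (A z * (x z / y z) ^ 2 + B z * (x z / y z))) z) ∧
        PlanePts (fun _ _ => 1) (fun z w => A z * w ^ (k + 1) + B z * w) ⊆
          {p | p.2 = 0 ∨ y p.1 * p.2 ^ k = x p.1}) ∧
    (∀ (k : ℕ) (A B : ℂ → ℂ), 1 ≤ k → Differentiable ℂ A → Differentiable ℂ B →
      volume (PlanePts (fun _ _ => 1) (fun z w => A z * w ^ (k + 1) + B z * w)) = 0 ∨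
        volume (DiscPts (fun _ _ => 1) (fun z w => A z * w ^ (k + 1) + B z * w)) = 0) ∧
    (∀ k : ℕ, 1 ≤ k →
      PlanePts (fun _ _ => 1) (fun z w => -Complex.exp z / k * w ^ (k + 1)) =
        {p | p.2 = 0 ∨ Complex.exp p.1 * p.2 ^ k = 1}) := by
  refine ⟨fun k A B hk hA hB => ?_, fun k A B hk hA hB => ?_, fun k hk => ?_⟩
  · rcases bern_two k hk A B hA hB with h | ⟨x, y, hs, hxy, h⟩
    · exact Or.inl h
    · refine Or.inr ⟨x, y, hs.diffx, hs.diffy, hxy, fun z hz => ?_, h⟩
      refine (hs.riccati z hz).congr_deriv ?_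
      ring
  · rcases bern_two k hk A B hA hB with h | ⟨x, y, hs, hxy, h⟩
    · right
      have h' : PlanePts (fun _ _ => 1) (fun z w => A z * w ^ (k + 1) + B z * w) = Set.univ := h
      rw [DiscPts, h', Set.sdiff_univ, measure_empty]
    · left
      exact measure_mono_null h (bern_null hk hs.diffx.continuous hs.diffy.continuous hxy)
  · have e : (fun z w : ℂ => -Complex.exp z / k * w ^ (k + 1)) =
        Bern k (fun z => -Complex.exp z / k) (fun _ => 0) := by
      funext z w
      simp [Bern]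
    rw [e]
    exact bern_example k hk

end Pool.Agent.Results.MP_7eaf46_an.BernoulliFields
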