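import Mathlib
import Pool.Agent.H17.RC.ExpoFin

/-!
# Fields `P ∂_z + (A e^w + B + C e^(-w)) ∂_w`: all leaves or at most two are covered by `ℂ`

`PlanePts` and `Ric` are in `Pool/Agent/H17/RC/Defs.lean`, `Expo` in
`Pool/Agent/H17/RC/ExpoDefs.lean`.
-/

set_option autoImplicit false

namespace Pool.Agent.Results.MP_7eaf46_an.ExponentialFields

open Pool.Agent.H17.RC

theorem result :
    (∀ P A B C : ℂ → ℂ, Differentiable ℂ P → Differentiable ℂ A → Differentiable ℂ B →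
      Differentiable ℂ C → (∃ z, P z ≠ 0) →
      (∀ p : ℂ × ℂ, P p.1 ≠ 0 → p ∈ PlanePts (fun z _ => P z) (Expo A B C)) ∨
      ∃ (c : ℂ → ℂ) (x y : Fin 2 → ℂ → ℂ), Differentiable ℂ c ∧ (∀ s, P (c s) ≠ 0) ∧
        (∀ i, Differentiable ℂ (x i) ∧ Differentiable ℂ (y i) ∧
          (∀ s, x i s ≠ 0 ∨ y i s ≠ 0) ∧
          ∀ s, y i s ≠ 0 → HasDerivAt (fun s => x i s / y i s)
            (deriv c s * (Ric A B C (c s) (x i s / y i s) / P (c s))) s) ∧
        ∀ p ∈ PlanePts (fun z _ => P z) (Expo A B C), P p.1 ≠ 0 →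
          ∃ i s, y i s ≠ 0 ∧ c s = p.1 ∧ Complex.exp p.2 = x i s / y i s) ∧
    PlanePts (fun _ _ => 1) (Expo (fun z => -2 * Complex.exp (-z)) (fun _ => 4)
      (fun z => -Complex.exp z)) =
      {p | Complex.exp p.2 = Complex.exp p.1 ∨ 2 * Complex.exp p.2 = Complex.exp p.1} :=
  ⟨fun P A B C hP hA hB hC hne => all_or_two P A B C hP hA hB hC hne, example_two⟩

end Pool.Agent.Results.MP_7eaf46_an.ExponentialFields
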