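import Mathlib
import Pool.Agent.H17.RC.Fin

/-!
# Riccati fields on `ℂ²`: all leaves or at most three are covered by `ℂ`

`PlanePts`, `DiscPts`, `Ric` are in `Pool/Agent/H17/RC/Defs.lean`.
-/

set_option autoImplicit false

namespace Pool.Agent.Results.MP_7eaf46_an.RiccatiFields

open Pool.Agent.H17.RC MeasureTheory

theorem result :
    (∀ P A B C : ℂ → ℂ, Differentiable ℂ P → Differentiable ℂ A → Differentiable ℂ B →
      Differentiable ℂ C →
      ((∃ z, P z ≠ 0) →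
        (∀ p : ℂ × ℂ, P p.1 ≠ 0 → p ∈ PlanePts (fun z _ => P z) (Ric A B C)) ∨
        ∃ (c : ℂ → ℂ) (x y : Fin 3 → ℂ → ℂ), Differentiable ℂ c ∧ (∀ s, P (c s) ≠ 0) ∧
          (∀ i, Differentiable ℂ (x i) ∧ Differentiable ℂ (y i) ∧
            (∀ s, x i s ≠ 0 ∨ y i s ≠ 0) ∧
            ∀ s, y i s ≠ 0 → HasDerivAt (fun s => x i s / y i s)
              (deriv c s * (Ric A B C (c s) (x i s / y i s) / P (c s))) s) ∧
          ∀ p ∈ PlanePts (fun z _ => P z) (Ric A B C), P p.1 ≠ 0 →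
            ∃ i s, y i s ≠ 0 ∧ p = (c s, x i s / y i s)) ∧
      (volume (PlanePts (fun z _ => P z) (Ric A B C)) = 0 ∨
        volume (DiscPts (fun z _ => P z) (Ric A B C)) = 0)) ∧
    PlanePts (fun _ _ => 1) (Ric (fun z => z ^ 2 - 1) (fun z => -2 * z) (fun _ => 1)) =
      {p | p.1 * p.2 = 1 ∨ (p.1 + 1) ^ 2 * p.2 = p.1 + 2 ∨ (p.1 - 1) ^ 2 * p.2 = p.1 - 2} :=
  ⟨fun P A B C hP hA hB hC => ⟨all_or_three P A B C hP hA hB hC,
    measure_form P A B C hP hA hB hC⟩, example_three⟩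

end Pool.Agent.Results.MP_7eaf46_an.RiccatiFields
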